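import Pool.Agent.AT3.Stmts3
import Pool.Agent.Helper86_K9.CE0
import Pool.Agent.Helper25_K9.ADA
import Pool.Agent.Helper20_K9.Adp
import Pool.Agent.Helper1_K9.DZO
import Pool.Agent.Helper27_K9.PRT
import Pool.Agent.Helper3_K9.Psi
import Pool.Agent.Helper2_K9.PUG
import Pool.Agent.Helper53_K9.Tra
import Pool.Agent.Helper82_K9.TRB
import Pool.Agent.Helper82_K9.WBO
import Pool.Agent.Helper50_PP.Ffa
import Pool.Agent.Helper75_PP.Quo

/-!
# Squad AT3, row CEN: blocks with a central defect group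
-/

open scoped BigOperators

set_option linter.unusedSectionVars false

noncomputable section

namespace Pool.Agent.PP.T3.H86

open Pool.Agent.Helper51_AWC Pool.Agent.Helper79_WRA Pool.Agent.PP Pool.Agent.PP.KF
open Pool.Agent.PP.K9 Pool.Agent.PP.K9.H97 Pool.Agent.PP.H75 Pool.Agent.PP.T3

attribute [local instance] Ideal.Quotient.field

/-- a central element acts by a scalar -/
theorem cent_mul {C : Type} [Group C] {θ : C → ℂ} (hθ : θ ∈ Irr C) {z : C}
    (hz : ∀ c, z * c = c * z) (c : C) : θ (z * c) = θ z / θ 1 * θ c := by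
  have hne : θ 1 ≠ 0 := irr_one_ne hθ
  obtain ⟨n, ρ, hρ, rfl⟩ := hθ
  obtain ⟨k, hk⟩ := schur_scalar ρ (ρ z) (by
    intro g
    have h1 : ρ z * ρ g = ρ g * ρ z := by rw [← map_mul, ← map_mul, hz]
    exact h1)
  have h1 : ∀ c, ρ.character (z * c) = k * ρ.character c := by
    intro c
    show LinearMap.trace ℂ _ (ρ (z * c)) = k * LinearMap.trace ℂ _ (ρ c)
    rw [map_mul, hk, smul_mul_assoc, map_smul, smul_eq_mul]
    rfl
  have h2 := h1 1
  rw [mul_one] at h2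
  rw [h2, mul_div_cancel_right₀ _ hne, h1]

/-- a character which is trivial on the central kernel comes from the quotient -/
theorem irr_defl' {A B : Type} [Group A] [Group B] {p : A →* B} (hp : Function.Surjective p)
    (hz : ∀ z, p z = 1 → ∀ c, z * c = c * z) {μ : A → ℂ}
    (hμ : μ ∈ Irr A) (h1 : ∀ z, p z = 1 → ∀ c, μ (z * c) = μ c) :
    ∃ θ ∈ Irr B, μ = fun a => θ (p a) := by
  have hne : μ 1 ≠ 0 := irr_one_ne hμ
  obtain ⟨n, ρ, hρ, rfl⟩ := hμ
  have hρz : ∀ z, p z = 1 → ρ z = 1 := by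
    intro z hpz
    obtain ⟨k, hk'⟩ := schur_scalar ρ (ρ z) (by
      intro g
      have h1 : ρ z * ρ g = ρ g * ρ z := by rw [← map_mul, ← map_mul, hz z hpz]
      exact h1)
    have hk1 : k = 1 := by
      have h2 : ρ.character (z * 1) = k * ρ.character 1 := by
        show LinearMap.trace ℂ _ (ρ (z * 1)) = k * LinearMap.trace ℂ _ (ρ 1)
        rw [map_mul, hk', smul_mul_assoc, map_smul, smul_eq_mul]
        rfl
      rw [h1 z hpz] at h2
      have h3 : (k - 1) * ρ.character 1 = 0 := by linear_combination -h2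
      rcases mul_eq_zero.1 h3 with h | h
      · exact sub_eq_zero.1 h
      · exact absurd h hne
    rw [hk', hk1, one_smul]
    rfl
  have hρe : ∀ x y : A, p x = p y → ρ x = ρ y := by
    intro x y hxy
    have hi : p (x * y⁻¹) = 1 := by rw [map_mul, map_inv, hxy, mul_inv_cancel]
    have h2 : x = (x * y⁻¹) * y := by group
    rw [h2, map_mul, hρz _ hi, one_mul]
  choose σ hσ using hp
  let ρ' : Representation ℂ B (Fin n → ℂ) :=
    { toFun := fun b => ρ (σ b)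
      map_one' := by
        have : ρ (σ 1) = ρ 1 := hρe _ _ (by rw [hσ, map_one])
        rw [this, map_one]
      map_mul' := fun b b' => by
        have : ρ (σ (b * b')) = ρ (σ b * σ b') := hρe _ _ (by rw [hσ, map_mul, hσ, hσ])
        rw [this, map_mul] }
  have hρ' : ∀ a, ρ' (p a) = ρ a := fun a => hρe _ _ (hσ (p a))
  refine ⟨ρ'.character, ⟨n, ρ', ?_, rfl⟩, ?_⟩
  · have f : Subrepresentation ρ' ≃o Subrepresentation ρ :=
      { toFun := fun S => ⟨S.toSubmodule, fun g v hv => by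
          rw [← hρ' g]
          exact S.apply_mem_toSubmodule (p g) hv⟩
        invFun := fun S => ⟨S.toSubmodule, fun h v hv => S.apply_mem_toSubmodule (σ h) hv⟩
        left_inv := fun S => rfl
        right_inv := fun S => rfl
        map_rel_iff' := Iff.rfl }
    exact (OrderIso.isSimpleOrder_iff f).2 hρ
  · funext a
    show LinearMap.trace ℂ _ (ρ a) = LinearMap.trace ℂ _ (ρ' (p a))
    rw [hρ']

/-- the multiplicative functions on a group -/
structure Mu {K : Type} [Group K] (l : K → ℂ) : Prop where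
  one : l 1 = 1
  mul : ∀ z z', l (z * z') = l z * l z'

theorem Mu.ne {K : Type} [Group K] {l : K → ℂ} (h : Mu l) (z : K) : l z * l z⁻¹ = 1 := by
  rw [← h.mul, mul_inv_cancel, h.one]

theorem mu_orth_self {K : Type} [Group K] [Fintype K] {l : K → ℂ} (hl : Mu l) :
    ∑ z : K, l z⁻¹ * l z = Fintype.card K := by
  rw [Finset.sum_congr rfl fun z _ => show l z⁻¹ * l z = 1 by rw [mul_comm, hl.ne]]
  simp

theorem mu_orth {K : Type} [Group K] [Fintype K] {l m : K → ℂ} (hl : Mu l) (hm : Mu m)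
    (h : l ≠ m) : ∑ z : K, l z⁻¹ * m z = 0 := by
  obtain ⟨z₀, hz⟩ : ∃ z₀, l z₀ ≠ m z₀ := by
    by_contra hc
    push Not at hc
    exact h (funext hc)
  have h1 : ∑ z : K, l z⁻¹ * m z = l z₀⁻¹ * m z₀ * ∑ z : K, l z⁻¹ * m z := by
    rw [Finset.mul_sum]
    rw [← Equiv.sum_comp (Equiv.mulLeft z₀) (fun z : K => l z⁻¹ * m z)]
    refine Finset.sum_congr rfl fun z _ => ?_
    show l (z₀ * z)⁻¹ * m (z₀ * z) = _
    rw [mul_inv_rev, hl.mul, hm.mul]
    ring
  have h2 : (l z₀⁻¹ * m z₀ - 1) * ∑ z : K, l z⁻¹ * m z = 0 := by linear_combination -h1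
  rcases mul_eq_zero.1 h2 with h3 | h3
  · exfalso
    apply hz
    have h4 := hl.ne z₀
    have h5 : l z₀ * (l z₀⁻¹ * m z₀ - 1) = 0 := by rw [h3, mul_zero]
    linear_combination m z₀ * h4 - h5
  · exact h3

theorem cen_quot (wbo : WboStmt) (ada : AdaStmt) (psi : PsiStmt) (ℓ : ℕ) [Fact ℓ.Prime]
    (M : Ideal (integralClosure ℤ ℂ)) [M.IsMaximal] (hM : (ℓ : integralClosure ℤ ℂ) ∈ M)
    (A B : Type) [Group A] [Finite A] [Group B] [Finite B] (p : A →* B)
    (hp : Function.Surjective p) (hkc : p.ker ≤ Subgroup.center A) (hkp : IsPGroup ℓ p.ker)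
    (γ : A → FF M) (hγ : IsIdem γ) (κ₀ : B → ℂ) (hκ₀ : IrrE M (H75.push p γ) = {κ₀})
    (hrc : Rc ℓ κ₀) :
    (κ₀ (p 1) ≠ 0) ∧ (∀ κ ∈ IrrE M γ, κ 1 = κ₀ (p 1)) ∧ (IrrE M γ).ncard = Nat.card p.ker := by
  classical
  have := Fintype.ofFinite A
  have := Fintype.ofFinite B
  have := Fintype.ofFinite p.ker
  have := Fintype.ofFinite (Irr A)
  have hKC : (Fintype.card p.ker : ℂ) ≠ 0 := by exact_mod_cast Fintype.card_ne_zero
  -- the kernel
  have hk2 : ∀ c d : A, p c = 1 → c * d = d * c := by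
    intro c d hc
    exact (Subgroup.mem_center_iff.1 (hkc (MonoidHom.mem_ker.2 hc)) d).symm
  have hpz : ∀ (z : p.ker) (x : A), p (z * x) = p x := by
    intro z x
    rw [map_mul, MonoidHom.mem_ker.1 z.2, one_mul]
  have hzl : ∀ z : p.ker, ∃ n : ℕ, (z : A) ^ ℓ ^ n = 1 := by
    intro z
    obtain ⟨n, hn⟩ := hkp z
    exact ⟨n, by simpa using congrArg Subtype.val hn⟩
  -- the characters
  obtain ⟨hpsi1, hpsi2⟩ := psi M A B p hp γ hγ.1
  rw [hκ₀] at hpsi1
  have hκ₀B : κ₀ ∈ Irr B ∧ (fun a => κ₀ (p a)) ∈ IrrE M γ := by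
    have : κ₀ ∈ ({κ₀} : Set (B → ℂ)) := rfl
    rw [hpsi1] at this
    exact this
  have hκ₀A : (fun a => κ₀ (p a)) ∈ Irr A := hκ₀B.2.1
  -- the scalars
  obtain ⟨lam, hlamd⟩ : ∃ lam : (A → ℂ) → (p.ker → ℂ), ∀ μ z, lam μ z = μ z / μ 1 :=
    ⟨fun μ z => μ z / μ 1, fun _ _ => rfl⟩
  have hlam : ∀ μ ∈ Irr A, ∀ (z : p.ker) (c : A), μ (z * c) = lam μ z * μ c := by
    intro μ hμ z c
    rw [hlamd]
    exact cent_mul hμ (fun c => hk2 z c (MonoidHom.mem_ker.1 z.2)) c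
  have hlamu : ∀ μ ∈ Irr A, Mu (lam μ) := by
    intro μ hμ
    have hne := irr_one_ne hμ
    refine ⟨?_, ?_⟩
    · rw [hlamd]
      exact div_self hne
    · intro z z'
      have h1 := hlam μ hμ z z'
      rw [hlamd μ (z * z'), hlamd μ z']
      show μ ((z : A) * z') / μ 1 = _
      rw [h1, mul_div_assoc]
  -- the finite set of the characters
  have hfin : (IrrE M γ).Finite := Set.Finite.subset (Set.toFinite (Irr A)) fun χ h => h.1
  obtain ⟨Γ, hΓ⟩ : ∃ Γ : Finset (A → ℂ), Γ = hfin.toFinset := ⟨_, rfl⟩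
  have hΓm : ∀ μ, μ ∈ Γ ↔ μ ∈ IrrE M γ := by
    intro μ
    rw [hΓ, Set.Finite.mem_toFinset]
  have hsum : ∀ f : (A → ℂ) → ℂ, ∑ᶠ χ ∈ IrrE M γ, f χ = ∑ χ ∈ Γ, f χ := by
    intro f
    rw [hΓ]
    exact finsum_mem_eq_finite_toFinset_sum f hfin
  obtain ⟨N, hN0, hN⟩ := H27.prt ℓ A
  have hpowN : ∀ (z : p.ker) (s : A), Reg ℓ s → ((z : A) * s) ^ N = s := by
    intro z s hs
    have h0 : (z : A) * s = s * z := hk2 z s (MonoidHom.mem_ker.1 z.2)
    rw [h0]
    exact hN s z h0.symm hs (hzl z)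
  -- singular elements
  have hsing : ∀ (z : p.ker) (s : A), Reg ℓ s → z ≠ 1 → ¬ Reg ℓ ((z : A) * s) := by
    intro z s hs hz1 hreg
    have h1 := hpowN z s hs
    have h2 := hpowN 1 ((z : A) * s) hreg
    rw [Subgroup.coe_one, one_mul] at h2
    rw [h2] at h1
    apply hz1
    apply Subtype.ext
    have : (z : A) * s = 1 * s := by rw [h1, one_mul]
    exact mul_right_cancel this
  -- the sums over the characters with a given scalar
  have hE0 : ∀ l : p.ker → ℂ, Mu l → ∀ s s' : A, Reg ℓ s → Reg ℓ s' →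
      (Fintype.card p.ker : ℂ) * ∑ μ ∈ Γ.filter (fun μ => lam μ = l), μ s⁻¹ * μ s' =
        ∑ μ ∈ Γ, μ s⁻¹ * μ s' := by
    intro l hl s s' hs hs'
    have h1 : ∑ z : p.ker, l z⁻¹ * ∑ μ ∈ Γ, μ s⁻¹ * μ (z * s') =
        ∑ μ ∈ Γ, μ s⁻¹ * μ s' := by
      rw [Finset.sum_eq_single_of_mem (1 : p.ker) (Finset.mem_univ _)]
      · rw [inv_one, hl.one, one_mul]
        simp only [Subgroup.coe_one, one_mul]
      · intro z _ hz0
        rw [← hsum, wbo ℓ M hM A γ hγ s (z * s') hs (hsing z s' hs' hz0), mul_zero]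
    rw [← h1]
    calc (Fintype.card p.ker : ℂ) * ∑ μ ∈ Γ.filter (fun μ => lam μ = l), μ s⁻¹ * μ s'
        = ∑ μ ∈ Γ, (μ s⁻¹ * μ s') * ∑ z : p.ker, l z⁻¹ * lam μ z := by
          rw [Finset.mul_sum, Finset.sum_filter]
          refine Finset.sum_congr rfl fun μ hμ => ?_
          have hμ' := hlamu μ ((hΓm μ).1 hμ).1
          by_cases h : lam μ = l
          · rw [if_pos h, h, mu_orth_self hl]
            ring
          · rw [if_neg h, mu_orth hl hμ' (fun h' => h h'.symm), mul_zero]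
      _ = ∑ z : p.ker, l z⁻¹ * ∑ μ ∈ Γ, μ s⁻¹ * μ (z * s') := by
          simp_rw [Finset.mul_sum]
          rw [Finset.sum_comm]
          refine Finset.sum_congr rfl fun i _ => Finset.sum_congr rfl fun μ hμ => ?_
          rw [hlam μ ((hΓm μ).1 hμ).1]
          ring
  have hmu1 : Mu (fun _ : p.ker => (1 : ℂ)) := ⟨rfl, fun _ _ => by rw [one_mul]⟩
  -- the characters with the scalar one
  have hone : Γ.filter (fun μ => lam μ = fun _ => 1) = {fun a => κ₀ (p a)} := by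
    ext μ
    rw [Finset.mem_filter, Finset.mem_singleton, hΓm]
    constructor
    · rintro ⟨hμ, hμ1⟩
      -- `μ` is inflated
      have hμA := hμ.1
      obtain ⟨θ, hθ, hθμ⟩ := irr_defl' hp (fun z hz c => hk2 z c hz) hμA (fun z hz c => by
        have := hlam μ hμA ⟨z, MonoidHom.mem_ker.2 hz⟩ c
        rwa [hμ1, one_mul] at this)
      have h1 : θ ∈ ({κ₀} : Set (B → ℂ)) := by
        rw [hpsi1]
        exact ⟨hθ, by rw [← hθμ]; exact hμ⟩
      rw [hθμ, Set.mem_singleton_iff.1 h1]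
    · rintro rfl
      refine ⟨hκ₀B.2, ?_⟩
      funext z
      rw [hlamd]
      show κ₀ (p z) / κ₀ (p 1) = 1
      have h2 : κ₀ (p z) = κ₀ (p 1) := by
        have := hpz z 1
        rw [mul_one] at this
        rw [this]
      rw [h2]
      exact div_self (irr_one_ne hκ₀A)
  have hE : ∀ l : p.ker → ℂ, Mu l → ∀ s s' : A, Reg ℓ s → Reg ℓ s' →
      ∑ μ ∈ Γ.filter (fun μ => lam μ = l), μ s⁻¹ * μ s' = κ₀ (p s⁻¹) * κ₀ (p s') := by
    intro l hl s s' hs hs'
    have h1 := hE0 l hl s s' hs hs'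
    have h2 := hE0 _ hmu1 s s' hs hs'
    rw [← h2, hone, Finset.sum_singleton] at h1
    exact mul_left_cancel₀ hKC h1
  have hreg1 : Reg ℓ (1 : A) := by
    unfold Reg
    rw [orderOf_one]
    exact Nat.coprime_one_left ℓ
  have hsq : ∀ μ ∈ Irr A, ∀ x : A, μ x * μ x⁻¹ = ((‖μ x‖ ^ 2 : ℝ) : ℂ) := by
    intro μ hμ x
    rw [← H94.irr_star hμ, Complex.mul_conj, Complex.normSq_eq_norm_sq]
  -- every element over a regular element
  have hdec : ∀ x : A, Reg ℓ (p x) → ∃ (z : p.ker) (s : A), Reg ℓ s ∧ x = z * s := by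
    intro x hx
    obtain ⟨hs, n, hn⟩ := hN0 x
    have hy : p ((x ^ N)⁻¹ * x) = 1 := by
      have h1 : p ((x ^ N)⁻¹ * x) ^ ℓ ^ n = 1 := by rw [← map_pow, hn, map_one]
      have h2 : orderOf (p ((x ^ N)⁻¹ * x)) ∣ ℓ ^ n := orderOf_dvd_of_pow_eq_one h1
      have h3 : orderOf (p ((x ^ N)⁻¹ * x)) ∣ orderOf (p x) := by
        have h4 : p ((x ^ N)⁻¹ * x) ∈ Subgroup.zpowers (p x) := by
          rw [map_mul, map_inv, map_pow]
          exact Subgroup.mul_mem _ (Subgroup.inv_mem _ (Subgroup.npow_mem_zpowers _ _))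
            (Subgroup.mem_zpowers _)
        exact orderOf_dvd_of_mem_zpowers h4
      have h5 : Nat.Coprime (ℓ ^ n) (orderOf (p x)) := (Nat.Coprime.pow_left n hx.symm)
      have h6 := Nat.eq_one_of_dvd_coprimes h5 h2 h3
      exact orderOf_eq_one_iff.1 h6
    refine ⟨⟨(x ^ N)⁻¹ * x, MonoidHom.mem_ker.2 hy⟩, x ^ N, hs, ?_⟩
    show x = (x ^ N)⁻¹ * x * x ^ N
    have h7 : x * x ^ N = x ^ N * x := ((Commute.refl x).pow_right N).eq
    rw [mul_assoc, h7, inv_mul_cancel_left]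
  have hdeg : ∀ κ ∈ IrrE M γ, κ 1 = κ₀ (p 1) := by
    intro κ hκ
    -- real numbers
    obtain ⟨d, hd, hκd⟩ := irr_one hκ.1
    obtain ⟨d₀, hd₀, hκd₀'⟩ := irr_one hκ₀A
    have hκd₀ : κ₀ (p 1) = d₀ := hκd₀'
    obtain ⟨l, hl⟩ : ∃ l, l = lam κ := ⟨_, rfl⟩
    have hll : Mu l := by rw [hl]; exact hlamu κ hκ.1
    have hκl : κ ∈ Γ.filter (fun μ => lam μ = l) := by
      rw [Finset.mem_filter, hΓm]
      exact ⟨hκ, hl.symm⟩
    -- proportionality
    have hprop : ∀ s : A, Reg ℓ s → κ₀ (p 1) * κ s = κ₀ (p s) * κ 1 := by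
      intro s hs
      have hterm : ∀ μ ∈ Γ.filter (fun μ => lam μ = l),
          ((‖κ₀ (p 1) * μ s - κ₀ (p s) * μ 1‖ ^ 2 : ℝ) : ℂ) =
          κ₀ (p 1) * κ₀ (p 1) * (μ s⁻¹ * μ s) - κ₀ (p 1) * κ₀ (p s⁻¹) * (μ 1⁻¹ * μ s) -
            κ₀ (p s) * κ₀ (p 1) * (μ s⁻¹ * μ 1) + κ₀ (p s) * κ₀ (p s⁻¹) * (μ 1⁻¹ * μ 1) := by
        intro μ hμ
        have hμA : μ ∈ Irr A := ((hΓm μ).1 (Finset.mem_filter.1 hμ).1).1
        rw [← Complex.normSq_eq_norm_sq, ← Complex.mul_conj, map_sub, map_mul, map_mul,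
          H94.irr_star hμA, H94.irr_star hμA]
        have e1 : starRingEnd ℂ (κ₀ (p 1)) = κ₀ (p 1⁻¹) := H94.irr_star hκ₀A 1
        have e2 : starRingEnd ℂ (κ₀ (p s)) = κ₀ (p s⁻¹) := H94.irr_star hκ₀A s
        rw [e1, e2]
        simp only [inv_one]
        ring
      have hzero : ((∑ μ ∈ Γ.filter (fun μ => lam μ = l),
          ‖κ₀ (p 1) * μ s - κ₀ (p s) * μ 1‖ ^ 2 : ℝ) : ℂ) = 0 := by
        push_cast
        have h0 : ∀ μ ∈ Γ.filter (fun μ => lam μ = l),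
            ((‖κ₀ (p 1) * μ s - κ₀ (p s) * μ 1‖ : ℝ) : ℂ) ^ 2 =
            κ₀ (p 1) * κ₀ (p 1) * (μ s⁻¹ * μ s) - κ₀ (p 1) * κ₀ (p s⁻¹) * (μ 1⁻¹ * μ s) -
            κ₀ (p s) * κ₀ (p 1) * (μ s⁻¹ * μ 1) + κ₀ (p s) * κ₀ (p s⁻¹) * (μ 1⁻¹ * μ 1) := by
          intro μ hμ
          rw [← hterm μ hμ]
          push_cast
          rfl
        rw [Finset.sum_congr rfl h0, Finset.sum_add_distrib, Finset.sum_sub_distrib,
          Finset.sum_sub_distrib, ← Finset.mul_sum, ← Finset.mul_sum, ← Finset.mul_sum,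
          ← Finset.mul_sum, hE l hll s s hs hs, hE l hll 1 s hreg1 hs, hE l hll s 1 hs hreg1,
          hE l hll 1 1 hreg1 hreg1, inv_one]
        ring
      have hzero' : ∑ μ ∈ Γ.filter (fun μ => lam μ = l),
          ‖κ₀ (p 1) * μ s - κ₀ (p s) * μ 1‖ ^ 2 = 0 := by exact_mod_cast hzero
      have h2 := (Finset.sum_eq_zero_iff_of_nonneg (fun μ _ => by positivity)).1 hzero' κ hκl
      have h3 : ‖κ₀ (p 1) * κ s - κ₀ (p s) * κ 1‖ = 0 := by
        exact pow_eq_zero_iff (two_ne_zero) |>.1 h2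
      exact sub_eq_zero.1 (norm_eq_zero.1 h3)
    -- the ratio of the degrees is an integer
    have hκ₀ZI : (fun a => κ₀ (p a)) ∈ ZI A := AddSubgroup.subset_closure hκ₀A
    have hκZI : κ ∈ ZI A := AddSubgroup.subset_closure hκ.1
    obtain ⟨m, hm⟩ := ada A N κ hκZI (fun a => κ₀ (p a)) hκ₀ZI
    have hcardA : (Fintype.card A : ℂ) ≠ 0 := by exact_mod_cast Fintype.card_ne_zero
    have hm2 : κ₀ (p 1) * m = κ 1 := by
      rw [← hm]
      unfold ipn
      rw [finsum_eq_sum_of_fintype, Nat.card_eq_fintype_card]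
      have h1 : ∀ x : A, κ₀ (p 1) * (κ (x ^ N) * starRingEnd ℂ (κ₀ (p x))) =
          κ 1 * (κ₀ (p x) * κ₀ (p x⁻¹)) := by
        intro x
        have e1 : starRingEnd ℂ (κ₀ (p x)) = κ₀ (p x⁻¹) := H94.irr_star hκ₀A x
        rw [e1]
        by_cases hx : Reg ℓ (p x)
        · obtain ⟨z, s, hs, hxs⟩ := hdec x hx
          have h2 : κ (x ^ N) = κ s := by rw [hxs, hpowN z s hs]
          have h3 : p x = p s := by rw [hxs, hpz]
          rw [h2, h3, ← mul_assoc, hprop s hs]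
          ring
        · have h2 : κ₀ (p x) = 0 := hrc.sg _ hx
          have h3 : κ₀ (p x⁻¹) = 0 := by rw [← e1, h2, map_zero]
          rw [h3, mul_zero, mul_zero, mul_zero, mul_zero]
      have h2 : κ₀ (p 1) * ((Fintype.card A : ℂ)⁻¹ *
          ∑ x : A, κ (x ^ N) * starRingEnd ℂ (κ₀ (p x))) =
          (Fintype.card A : ℂ)⁻¹ * (κ 1 * ∑ x : A, κ₀ (p x) * κ₀ (p x⁻¹)) := by
        rw [Finset.mul_sum (s := Finset.univ) (a := κ 1), ← Finset.sum_congr rfl fun x _ => h1 x,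
          ← Finset.mul_sum]
        ring
      rw [h2]
      have h3 : ∑ x : A, κ₀ (p x) * κ₀ (p x⁻¹) = Fintype.card A := irr_orth_self hκ₀A
      rw [h3]
      field_simp
    -- the degrees are equal
    have h1 := hE l hll 1 1 hreg1 hreg1
    rw [inv_one] at h1
    have h2 : ∀ μ ∈ Γ.filter (fun μ => lam μ = l), ∃ a : ℕ, μ 1 = a := by
      intro μ hμ
      obtain ⟨a, -, ha⟩ := irr_one ((hΓm μ).1 (Finset.mem_filter.1 hμ).1).1
      exact ⟨a, ha⟩
    have h3 : ∃ r : ℕ, ∑ μ ∈ (Γ.filter (fun μ => lam μ = l)).erase κ, μ 1 * μ 1 = r := by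
      have h4 : ∀ S : Finset (A → ℂ), (∀ μ ∈ S, ∃ a : ℕ, μ 1 = a) →
          ∃ r : ℕ, ∑ μ ∈ S, μ 1 * μ 1 = r := by
        intro S
        induction S using Finset.induction_on with
        | empty => exact fun _ => ⟨0, by simp⟩
        | insert μ S hμ ih =>
          intro h
          obtain ⟨a, ha⟩ := h μ (Finset.mem_insert_self _ _)
          obtain ⟨r, hr⟩ := ih fun ν hν => h ν (Finset.mem_insert_of_mem hν)
          refine ⟨a * a + r, ?_⟩
          rw [Finset.sum_insert hμ, ha, hr]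
          push_cast
          ring
      exact h4 _ fun μ hμ => h2 μ (Finset.mem_of_mem_erase hμ)
    obtain ⟨r, hr⟩ := h3
    rw [← Finset.add_sum_erase _ _ hκl, hr, hκd, hκd₀] at h1
    have h5 : d * d + r = d₀ * d₀ := by exact_mod_cast h1
    rw [hκd₀, hκd] at hm2
    have h6 : (d₀ : ℤ) * m = d := by exact_mod_cast hm2
    have hd0Z : (0 : ℤ) < d₀ := by exact_mod_cast hd₀
    have hdZ : (0 : ℤ) < d := by exact_mod_cast hd
    have hmpos : 0 < m := by
      by_contra h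
      have : (d₀ : ℤ) * m ≤ 0 := mul_nonpos_of_nonneg_of_nonpos hd0Z.le (not_lt.1 h)
      omega
    have h7 : (d : ℤ) * d ≤ d₀ * d₀ := by
      have : ((d * d + r : ℕ) : ℤ) = ((d₀ * d₀ : ℕ) : ℤ) := by rw [h5]
      push_cast at this
      have hr0 : (0 : ℤ) ≤ r := by positivity
      linarith
    have h8 : (d : ℤ) ≤ d₀ := by
      by_contra h
      push Not at h
      nlinarith
    have h9 : m = 1 := by
      have : m ≤ 1 := by
        by_contra h
        push Not at h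
        have : (d₀ : ℤ) * 2 ≤ d₀ * m := mul_le_mul_of_nonneg_left (by omega) hd0Z.le
        omega
      omega
    rw [h9, mul_one] at h6
    rw [hκd, hκd₀]
    exact_mod_cast h6.symm
  have hk0 : κ₀ (p 1) ≠ 0 := irr_one_ne hκ₀A
  refine ⟨hk0, hdeg, ?_⟩
  have h1 := hE0 _ hmu1 1 1 hreg1 hreg1
  rw [hone, Finset.sum_singleton] at h1
  have h2 : ∑ μ ∈ Γ, μ 1⁻¹ * μ 1 = (Γ.card : ℂ) * (κ₀ (p 1) * κ₀ (p 1)) := by
    rw [Finset.sum_congr rfl fun μ hμ => by rw [inv_one, hdeg μ ((hΓm μ).1 hμ)],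
      Finset.sum_const, nsmul_eq_mul]
  rw [h2] at h1
  have h3 : (Fintype.card p.ker : ℂ) = Γ.card := by
    have h4 : κ₀ (p 1) * κ₀ (p 1) ≠ 0 := mul_ne_zero hk0 hk0
    have h5 : (Fintype.card p.ker : ℂ) * (κ₀ (p 1) * κ₀ (p 1)) =
        (Γ.card : ℂ) * (κ₀ (p 1) * κ₀ (p 1)) := by
      rw [← h1, inv_one]
    exact mul_right_cancel₀ h4 h5
  have h4 : Fintype.card p.ker = Γ.card := by exact_mod_cast h3
  rw [Nat.card_eq_fintype_card, h4, hΓ, Set.ncard_eq_toFinset_card _ hfin]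

theorem cen (psg : PsgStmt) : CenStmt := by
  intro ℓ hℓ M _ hM H _ _ b hb V hV hVc
  have hF : GoodF ℓ (FF M) := H50.fld ℓ hℓ.out M hM
  have hn : V.Normal := ⟨fun n hn g => by
    have h1 := Subgroup.mem_center_iff.1 (hVc hn) g
    rw [h1, mul_assoc, mul_inv_cancel, mul_one]
    exact hn⟩
  obtain ⟨p, hpd⟩ : ∃ p : H →* H ⧸ V, p = QuotientGroup.mk' V := ⟨_, rfl⟩
  have hker : p.ker = V := by rw [hpd, QuotientGroup.ker_mk']
  have hp : Function.Surjective p := by rw [hpd]; exact QuotientGroup.mk'_surjective V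
  have hkp : IsPGroup ℓ p.ker := by rw [hker]; exact hV.pg
  have hkc : p.ker ≤ Subgroup.center H := by rw [hker]; exact hVc
  have hb' : IsBlk (H75.push p b) := psg ℓ (FF M) hF H (H ⧸ V) p hp hkc hkp b hb
  have wbo : WboStmt := H82W.wbo (H82.trb H53.tra)
  have hgood : ∀ Q : Subgroup (H ⧸ V), IsPGroup ℓ Q → Gd (H75.push p b) Q → Q = ⊥ := by
    intro Q hQ hQb
    have h1 : Q = (Q.comap p).map p := (Subgroup.map_comap_eq_self_of_surjective hp Q).symm
    have hcard : Nat.card (Q.comap p) = Nat.card V * Nat.card Q := by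
      have := H75.card_comap (p := p) hp Q
      rw [this, hker]
    have h2 : IsPGroup ℓ (Q.comap p) := by
      obtain ⟨n, hn⟩ := (IsPGroup.iff_card).1 hQ
      obtain ⟨m, hm⟩ := (IsPGroup.iff_card).1 hV.pg
      exact IsPGroup.of_card (n := m + n) (by rw [hcard, hn, hm, pow_add])
    have h3 : p.ker ≤ Q.comap p := by
      intro x hx
      rw [Subgroup.mem_comap, MonoidHom.mem_ker.1 hx]
      exact Q.one_mem
    rw [h1] at hQb
    have h4 := (H02.pug ℓ (FF M) hF H (H ⧸ V) p hp hkp b hb.1 _ h3 h2).2 hQb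
    have h6 := hV.mx _ h2 h4
    rw [hcard] at h6
    have h7 : 0 < Nat.card V := Nat.card_pos
    have h8 : 0 < Nat.card Q := Nat.card_pos
    have h9 : Nat.card Q = 1 := by
      have : Nat.card V * Nat.card Q ≤ Nat.card V * 1 := by rw [mul_one]; exact h6
      have := Nat.le_of_mul_le_mul_left this h7
      omega
    exact Subgroup.card_eq_one.1 h9
  obtain ⟨κ₀, hκ₀, hrc⟩ := H1.dzo wbo ℓ M hM (H ⧸ V) (H75.push p b) hb' hgood
  obtain ⟨h1, h2, h3⟩ := cen_quot wbo (H25.ada H20.adp) H3.psi ℓ M hM H (H ⧸ V) p hp hkc hkp b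
    hb.1 κ₀ hκ₀ hrc
  refine ⟨?_, by rw [h3, hker]⟩
  -- the degree
  obtain ⟨hpsi1, hpsi2⟩ := H3.psi M H (H ⧸ V) p hp b hb.1.1
  rw [hκ₀] at hpsi1
  have hκ₀B : κ₀ ∈ Irr (H ⧸ V) ∧ (fun a => κ₀ (p a)) ∈ IrrE M b := by
    have : κ₀ ∈ ({κ₀} : Set (H ⧸ V → ℂ)) := rfl
    rw [hpsi1] at this
    exact this
  obtain ⟨d, hd, hdd⟩ := irr_one hκ₀B.2.1
  exact ⟨d, hd, fun κ hκ => by rw [h2 κ hκ]; exact hdd⟩

end Pool.Agent.PP.T3.H86
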